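import Pool.Agent.Helper59.HR.Spec

set_option autoImplicit false
set_option linter.all false

open MvPolynomial Pool.Agent.Helper59.LP

namespace Pool.Agent.Helper52.HR.CF

variable {J : Type} [Fintype J] [DecidableEq J] {d : ℕ}

/-- the matrix of the vectors of `σ` -/
noncomputable def mat (v : J → Ve d) (σ : Finset J) (h : σ.card = d) : Matrix (Fin d) (Fin d) ℝ :=
  fun k : Fin d => v ((σ.equivFinOfCardEq h).symm k)

lemma dv_eq (v : J → Ve d) (σ : Finset J) (h : σ.card = d) : dv v σ = |(mat v σ h).det| := by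
  unfold dv mat
  rw [dif_pos h]

lemma isUnit_mat (v : J → Ve d) (σ : Finset J) (h : σ.card = d) (hi : Ind v σ) :
    IsUnit (mat v σ h) := by
  rw [← Matrix.linearIndependent_rows_iff_isUnit]
  exact hi.comp (σ.equivFinOfCardEq h).symm (σ.equivFinOfCardEq h).symm.injective

lemma sum_eq (v : J → Ve d) (σ : Finset J) (h : σ.card = d) (g : J → ℝ)
    (hg : ∀ j, j ∉ σ → g j = 0) :
    ∑ j, g j • v j = Matrix.vecMul (fun k => g ((σ.equivFinOfCardEq h).symm k)) (mat v σ h) := by
  have a1 : ∑ j, g j • v j = ∑ j ∈ σ, g j • v j := by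
    symm
    apply Finset.sum_subset (Finset.subset_univ σ)
    intro j _ hj
    rw [hg j hj, zero_smul]
  rw [a1, ← Finset.sum_coe_sort]
  rw [← Equiv.sum_comp (σ.equivFinOfCardEq h).symm]
  ext k
  simp only [Finset.sum_apply, Pi.smul_apply, smul_eq_mul, Matrix.vecMul, dotProduct, mat]

theorem main : S_CF := by
  intro J _ _ d v ξ σ h hi
  classical
  have hu := isUnit_mat v σ h hi
  have hdet : IsUnit (mat v σ h).det := (Matrix.isUnit_iff_isUnit_det _).1 hu
  have hex : ∃ g : J → ℝ, (∀ j, j ∉ σ → g j = 0) ∧ ∑ j, g j • v j = ξ := by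
    refine ⟨fun j => if hj : j ∈ σ then
      (Matrix.vecMul ξ (mat v σ h)⁻¹) (σ.equivFinOfCardEq h ⟨j, hj⟩) else 0, fun j hj => ?_, ?_⟩
    · simp [hj]
    · rw [sum_eq v σ h _ (fun j hj => by simp [hj])]
      have : (fun k : Fin d => (if hj : ((σ.equivFinOfCardEq h).symm k : J) ∈ σ then
          (Matrix.vecMul ξ (mat v σ h)⁻¹)
            (σ.equivFinOfCardEq h ⟨((σ.equivFinOfCardEq h).symm k : J), hj⟩) else 0)) =
          Matrix.vecMul ξ (mat v σ h)⁻¹ := by
        funext k
        rw [dif_pos ((σ.equivFinOfCardEq h).symm k).2]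
        congr 1
        simp
      rw [this, Matrix.vecMul_vecMul, Matrix.nonsing_inv_mul _ hdet, Matrix.vecMul_one]
  have huniq : ∀ g g' : J → ℝ, (∀ j, j ∉ σ → g j = 0) → (∀ j, j ∉ σ → g' j = 0) →
      ∑ j, g j • v j = ∑ j, g' j • v j → g = g' := by
    intro g g' hg hg' he
    rw [sum_eq v σ h g hg, sum_eq v σ h g' hg'] at he
    have h2 := congrArg (fun y => Matrix.vecMul y (mat v σ h)⁻¹) he
    simp only [Matrix.vecMul_vecMul, Matrix.mul_nonsing_inv _ hdet, Matrix.vecMul_one] at h2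
    funext j
    by_cases hj : j ∈ σ
    · have h3 := congrFun h2 (σ.equivFinOfCardEq h ⟨j, hj⟩)
      simpa using h3
    · rw [hg j hj, hg' j hj]
  have hcf : cf v ξ σ = Classical.choose hex := by
    unfold cf
    rw [dif_pos hex]
  have hs := Classical.choose_spec hex
  rw [← hcf] at hs
  refine ⟨hs.1, hs.2, ?_, fun g hg he => huniq g _ hg hs.1 (he.trans hs.2.symm), fun c => ?_⟩
  · rw [dv_eq v σ h]
    exact abs_pos.2 hdet.ne_zero
  · have hdt : ∀ m : Ve d, (∀ j ∈ σ, dt m (v j) = c j) ↔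
        Matrix.mulVec (mat v σ h) m = fun k => c ((σ.equivFinOfCardEq h).symm k) := by
      intro m
      constructor
      · intro hm
        funext k
        rw [← hm _ ((σ.equivFinOfCardEq h).symm k).2]
        simp only [Matrix.mulVec, dotProduct, mat, dt]
        exact Finset.sum_congr rfl fun l _ => mul_comm _ _
      · intro hm j hj
        have h3 := congrFun hm (σ.equivFinOfCardEq h ⟨j, hj⟩)
        simp only [Matrix.mulVec, dotProduct, mat, Equiv.symm_apply_apply] at h3
        rw [← h3]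
        exact Finset.sum_congr rfl fun l _ => mul_comm _ _
    refine ⟨Matrix.mulVec (mat v σ h)⁻¹ (fun k => c ((σ.equivFinOfCardEq h).symm k)), ?_, ?_⟩
    · show ∀ j ∈ σ, _
      rw [hdt, Matrix.mulVec_mulVec, Matrix.mul_nonsing_inv _ hdet, Matrix.one_mulVec]
    · intro m hm
      rw [hdt] at hm
      rw [← hm, Matrix.mulVec_mulVec, Matrix.nonsing_inv_mul _ hdet, Matrix.one_mulVec]

end Pool.Agent.Helper52.HR.CF
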