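import Pool.Agent.Helper59.HR.Spec

set_option autoImplicit false
set_option linter.all false

open MvPolynomial Pool.Agent.Helper59.LP

namespace Pool.Agent.Helper52.HR.CNT

variable {J : Type} [Fintype J] [DecidableEq J] {d : ℕ}

/-- the matrix of the vectors of `σ` -/
noncomputable def mat (v : J → Ve d) (σ : Finset J) (h : σ.card = d) : Matrix (Fin d) (Fin d) ℝ :=
  fun k : Fin d => v ((σ.equivFinOfCardEq h).symm k)

lemma dv_eq (v : J → Ve d) (σ : Finset J) (h : σ.card = d) : dv v σ = |(mat v σ h).det| := by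
  unfold dv mat
  rw [dif_pos h]

open Classical in
/-- Cramer -/
lemma cf_eq (hCF : S_CF) (v : J → Ve d) (ξ : Ve d) (σ : Finset J) (h : σ.card = d)
    (hi : Ind v σ) : cf v ξ σ = fun j => if hj : j ∈ σ then
      ((mat v σ h).det)⁻¹ * (Matrix.vecMul ξ (mat v σ h).adjugate) (σ.equivFinOfCardEq h ⟨j, hj⟩)
      else 0 := by
  obtain ⟨h1, h2, h3, h4, -⟩ := hCF J d v ξ σ h hi
  symm
  have hdet : (mat v σ h).det ≠ 0 := by
    intro h0
    rw [dv_eq v σ h, h0, abs_zero] at h3
    exact lt_irrefl _ h3
  apply h4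
  · intro j hj
    simp [hj]
  · have e1 : ∀ g : Fin d → ℝ, (∑ j, (if hj : j ∈ σ then g (σ.equivFinOfCardEq h ⟨j, hj⟩)
        else 0) • v j) = Matrix.vecMul g (mat v σ h) := by
      intro g
      have a1 : (∑ j, (if hj : j ∈ σ then g (σ.equivFinOfCardEq h ⟨j, hj⟩) else 0) • v j) =
          ∑ j ∈ σ, (if hj : j ∈ σ then g (σ.equivFinOfCardEq h ⟨j, hj⟩) else 0) • v j := by
        symm
        apply Finset.sum_subset (Finset.subset_univ σ)
        intro j _ hj
        rw [dif_neg hj, zero_smul]
      rw [a1, ← Finset.sum_coe_sort]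
      have a2 : ∀ j : σ, (if hj : (j : J) ∈ σ then g (σ.equivFinOfCardEq h ⟨j, hj⟩) else 0) •
          v j = g (σ.equivFinOfCardEq h j) • v j := by
        intro j
        rw [dif_pos j.2]
      rw [Finset.sum_congr rfl fun j _ => a2 j]
      rw [← Equiv.sum_comp (σ.equivFinOfCardEq h).symm]
      ext k
      simp only [Finset.sum_apply, Pi.smul_apply, smul_eq_mul, Matrix.vecMul, dotProduct, mat,
        Equiv.apply_symm_apply]
    rw [e1 fun k => ((mat v σ h).det)⁻¹ * (Matrix.vecMul ξ (mat v σ h).adjugate) k]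
    have e2 : (fun k => ((mat v σ h).det)⁻¹ * (Matrix.vecMul ξ (mat v σ h).adjugate) k) =
        ((mat v σ h).det)⁻¹ • (Matrix.vecMul ξ (mat v σ h).adjugate) := rfl
    rw [e2, Matrix.smul_vecMul, Matrix.vecMul_vecMul, Matrix.adjugate_mul, Matrix.vecMul_smul,
      Matrix.vecMul_one, smul_smul, inv_mul_cancel₀ hdet, one_smul]

lemma cont_mat (w : ℝ → J → Ve d) (hw : Continuous w) (σ : Finset J) (h : σ.card = d) :
    Continuous fun t => mat (w t) σ h := by
  unfold mat
  refine continuous_pi fun k => ?_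
  exact (continuous_apply _).comp hw

theorem main (hCF : S_CF) : S_CNT := by
  intro J _ _ d ξ w U S F hw hU f
  have e : (fun t => fnS (w t) ξ S F f) = fun t => ∑ σ ∈ S,
      (dv (w t) σ * ∏ j ∈ σ, cf (w t) ξ σ j)⁻¹ * aeval (cf (w t) ξ σ) (xm F * f) := by
    funext t
    simp [fnS, dgS, tm, LinearMap.sum_apply]
  rw [e]
  refine continuousOn_finset_sum _ fun σ hσ => ?_
  by_cases hUe : U.Nonempty
  · obtain ⟨t0, ht0⟩ := hUe
    have h := (hU t0 ht0 σ hσ).1
    have hd : ContinuousOn (fun t => dv (w t) σ) U := by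
      have : (fun t => dv (w t) σ) = fun t => |(mat (w t) σ h).det| := by
        funext t
        rw [dv_eq (w t) σ h]
      rw [this]
      exact (cont_mat w hw σ h).matrix_det.abs.continuousOn
    have hc : ContinuousOn (fun t => cf (w t) ξ σ) U := by
      refine continuousOn_pi.2 fun j => ?_
      by_cases hj : j ∈ σ
      · have hcong : Set.EqOn (fun t => cf (w t) ξ σ j) (fun t => ((mat (w t) σ h).det)⁻¹ *
            (Matrix.vecMul ξ (mat (w t) σ h).adjugate) (σ.equivFinOfCardEq h ⟨j, hj⟩)) U := by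
          intro t ht
          show cf (w t) ξ σ j = _
          rw [cf_eq hCF (w t) ξ σ h (hU t ht σ hσ).2.1]
          simp only [dif_pos hj]
        refine ContinuousOn.congr ?_ hcong
        refine ContinuousOn.mul ?_ ?_
        · refine ContinuousOn.inv₀ (cont_mat w hw σ h).matrix_det.continuousOn fun t ht h0 => ?_
          have h3 := (hCF J d (w t) ξ σ h (hU t ht σ hσ).2.1).2.2.1
          rw [dv_eq (w t) σ h, h0, abs_zero] at h3
          exact lt_irrefl _ h3
        · refine Continuous.continuousOn ?_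
          have : Continuous fun t => Matrix.vecMul ξ (mat (w t) σ h).adjugate :=
            Continuous.matrix_vecMul continuous_const (cont_mat w hw σ h).matrix_adjugate
          exact (continuous_apply _).comp this
      · have hcong : Set.EqOn (fun t => cf (w t) ξ σ j) (fun _ => 0) U := by
          intro t ht
          exact (hCF J d (w t) ξ σ h (hU t ht σ hσ).2.1).1 j hj
        exact continuousOn_const.congr hcong
    refine ContinuousOn.mul (ContinuousOn.inv₀ (hd.mul (continuousOn_finset_prod _ fun j _ =>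
      (continuousOn_pi.1 hc j))) fun t ht => ?_) ?_
    · have h3 := (hCF J d (w t) ξ σ h (hU t ht σ hσ).2.1).2.2.1
      exact mul_ne_zero h3.ne' (Finset.prod_ne_zero_iff.2 fun j hj => (hU t ht σ hσ).2.2 j hj)
    · have : Continuous fun g : J → ℝ => aeval g (xm F * f) := by
        exact MvPolynomial.continuous_eval (xm F * f)
      exact this.comp_continuousOn hc
  · rw [Set.not_nonempty_iff_eq_empty] at hUe
    rw [hUe]
    exact continuousOn_empty _

end Pool.Agent.Helper52.HR.CNT
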