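import Pool.Agent.Helper59.HR.Spec

set_option autoImplicit false
set_option linter.all false

open MvPolynomial Pool.Agent.Helper59.LP

namespace Pool.Agent.Helper52.HR.SWAP

variable {J : Type} [Fintype J] [DecidableEq J] {d : ℕ}

lemma dt_cont (x : Ve d) : Continuous fun m : Ve d => dt m x := by
  unfold dt
  fun_prop

lemma dt_add (m m' x : Ve d) : dt (m + m') x = dt m x + dt m' x := by
  simp [dt, add_mul, Finset.sum_add_distrib]

lemma dt_smul (t : ℝ) (m x : Ve d) : dt (t • m) x = t * dt m x := by
  simp [dt, Finset.mul_sum, mul_assoc]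

lemma dt_rel (v : J → Ve d) (lam : J → ℝ) (h : ∑ j, lam j • v j = 0) (m : Ve d) :
    ∑ j, lam j * dt m (v j) = 0 := by
  have h1 : ∑ j, lam j * dt m (v j) = ∑ k, m k * (∑ j, lam j • v j) k := by
    simp only [dt, Finset.sum_apply, Pi.smul_apply, smul_eq_mul, Finset.mul_sum]
    rw [Finset.sum_comm]
    refine Finset.sum_congr rfl fun k _ => Finset.sum_congr rfl fun j _ => by ring
  rw [h1, h]
  simp

lemma mem_ac (v : J → Ve d) (c : J → ℝ) (m : Ve d) (j : J) :
    j ∈ ac v c m ↔ dt m (v j) = c j := by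
  simp [ac]

lemma bdd (v : J → Ve d) (hv : PS v) (C : ℝ) :
    ∃ R : ℝ, ∀ m : Ve d, (∀ j, dt m (v j) ≤ C) → ‖m‖ ≤ R := by
  by_cases hne : (Metric.sphere (0 : Ve d) 1).Nonempty
  · have hf : Continuous fun m : Ve d => ∑ j, max (dt m (v j)) 0 :=
      continuous_finset_sum _ fun j _ => (dt_cont (v j)).max continuous_const
    obtain ⟨m0, hm0, hmin⟩ := (isCompact_sphere (0 : Ve d) 1).exists_isMinOn hne hf.continuousOn
    have hpos : 0 < ∑ j, max (dt m0 (v j)) 0 := by
      refine lt_of_le_of_ne (Finset.sum_nonneg fun j _ => le_max_right _ _) fun h0 => ?_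
      have h1 := (Finset.sum_eq_zero_iff_of_nonneg (fun j _ => le_max_right (dt m0 (v j)) 0)).1
        h0.symm
      have h2 : -m0 = 0 := by
        apply hv
        intro j
        have h3 := h1 j (Finset.mem_univ j)
        have h4 : dt m0 (v j) ≤ 0 := by
          rw [← h3]
          exact le_max_left _ _
        have h5 : dt (-m0) (v j) = -dt m0 (v j) := by
          simp [dt]
        rw [h5]
        linarith
      have h6 : m0 = 0 := neg_eq_zero.1 h2
      rw [h6] at hm0
      simp at hm0
    set δ := ∑ j, max (dt m0 (v j)) 0 with hδ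
    refine ⟨(∑ j : J, max C 0) / δ, fun m hm => ?_⟩
    rw [le_div_iff₀ hpos]
    by_cases hm0' : m = 0
    · rw [hm0', norm_zero, zero_mul]
      exact Finset.sum_nonneg fun j _ => le_max_right _ _
    · have hn : 0 < ‖m‖ := norm_pos_iff.2 hm0'
      have h1 : (‖m‖⁻¹ • m) ∈ Metric.sphere (0 : Ve d) 1 := by
        rw [mem_sphere_zero_iff_norm, norm_smul, norm_inv, norm_norm, inv_mul_cancel₀ hn.ne']
      have h2 : δ ≤ ∑ j, max (dt (‖m‖⁻¹ • m) (v j)) 0 := hmin h1
      have h3 : ∑ j, max (dt (‖m‖⁻¹ • m) (v j)) 0 = ‖m‖⁻¹ * ∑ j, max (dt m (v j)) 0 := by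
        rw [Finset.mul_sum]
        refine Finset.sum_congr rfl fun j _ => ?_
        rw [dt_smul, mul_max_of_nonneg _ _ (inv_nonneg.2 hn.le), mul_zero]
      rw [h3] at h2
      have h4 : ‖m‖ * δ ≤ ∑ j, max (dt m (v j)) 0 := by
        have := mul_le_mul_of_nonneg_left h2 hn.le
        rwa [← mul_assoc, mul_inv_cancel₀ hn.ne', one_mul] at this
      refine h4.trans (Finset.sum_le_sum fun j _ => ?_)
      exact max_le_max (hm j) le_rfl
  · refine ⟨0, fun m _ => ?_⟩
    by_contra h
    have hn : 0 < ‖m‖ := not_le.1 h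
    apply hne
    refine ⟨‖m‖⁻¹ • m, ?_⟩
    rw [mem_sphere_zero_iff_norm, norm_smul, norm_inv, norm_norm, inv_mul_cancel₀ hn.ne']

/-- upper semicontinuity of the active sets -/
lemma usc1 (v : J → Ve d) (hv : PS v) (c u : J → ℝ) (σ : Finset J) :
    ∀ᶠ s in nhds (0 : ℝ), ∀ m, Fe v (fun j => c j + s * u j) m →
      σ ⊆ ac v (fun j => c j + s * u j) m → ∃ m', Fe v c m' ∧ σ ⊆ ac v c m' := by
  by_cases H : ∃ m', Fe v c m' ∧ σ ⊆ ac v c m'
  · exact Filter.Eventually.of_forall fun s m _ _ => H
  · push Not at H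
    obtain ⟨R, hR⟩ := bdd v hv (∑ j, (|c j| + |u j|))
    let K : Set (ℝ × Ve d) := {p | |p.1| ≤ 1 ∧ (∀ j, dt p.2 (v j) ≤ c j + p.1 * u j) ∧
      ∀ j ∈ σ, dt p.2 (v j) = c j + p.1 * u j}
    have hcl : IsClosed K := by
      have e : K = {p | |p.1| ≤ 1} ∩ ((⋂ j, {p | dt p.2 (v j) ≤ c j + p.1 * u j}) ∩
          ⋂ j ∈ σ, {p | dt p.2 (v j) = c j + p.1 * u j}) := by
        ext p
        simp [K]
      rw [e]
      refine IsClosed.inter (isClosed_le (by fun_prop) continuous_const) (IsClosed.inter ?_ ?_)
      · exact isClosed_iInter fun j => isClosed_le ((dt_cont (v j)).comp continuous_snd)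
          (by fun_prop)
      · exact isClosed_biInter fun j _ => isClosed_eq ((dt_cont (v j)).comp continuous_snd)
          (by fun_prop)
    have hsub : K ⊆ Metric.closedBall (0 : ℝ) 1 ×ˢ Metric.closedBall (0 : Ve d) R := by
      rintro ⟨s, m⟩ ⟨h1, h2, -⟩
      refine ⟨?_, ?_⟩
      · rw [mem_closedBall_zero_iff, Real.norm_eq_abs]
        exact h1
      · rw [mem_closedBall_zero_iff]
        refine hR m fun j => (h2 j).trans ?_
        have h3 : c j + s * u j ≤ |c j| + |u j| := by
          refine add_le_add (le_abs_self _) ((le_abs_self _).trans ?_)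
          rw [abs_mul]
          exact mul_le_of_le_one_left (abs_nonneg _) h1
        refine h3.trans ?_
        exact Finset.single_le_sum (f := fun j => |c j| + |u j|)
          (fun j _ => add_nonneg (abs_nonneg _) (abs_nonneg _)) (Finset.mem_univ j)
    have hK : IsCompact K :=
      ((isCompact_closedBall _ _).prod (isCompact_closedBall _ _)).of_isClosed_subset hcl hsub
    have hI : IsClosed (Prod.fst '' K) := (hK.image continuous_fst).isClosed
    have h0 : (0 : ℝ) ∉ Prod.fst '' K := by
      rintro ⟨⟨s, m⟩, ⟨h1, h2, h3⟩, h4⟩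
      simp only at h4 h1 h2 h3
      subst h4
      refine H m (fun j => by simpa using h2 j) fun j hj => ?_
      rw [mem_ac]
      simpa using h3 j hj
    have h1 : ∀ᶠ s in nhds (0 : ℝ), s ∉ Prod.fst '' K := hI.isOpen_compl.mem_nhds h0
    have h2 : ∀ᶠ s in nhds (0 : ℝ), |s| ≤ 1 := by
      have : Metric.closedBall (0 : ℝ) 1 ∈ nhds (0 : ℝ) := Metric.closedBall_mem_nhds 0 one_pos
      filter_upwards [this] with s hs
      simpa using hs
    filter_upwards [h1, h2] with s hs1 hs2 m hm hσ
    exfalso
    apply hs1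
    refine ⟨(s, m), ⟨hs2, hm, fun j hj => ?_⟩, rfl⟩
    exact (mem_ac _ _ _ _).1 (hσ hj)

lemma usc (v : J → Ve d) (hv : PS v) (c u : J → ℝ) :
    ∀ᶠ s in nhds (0 : ℝ), ∀ m, Fe v (fun j => c j + s * u j) m →
      ∃ m', Fe v c m' ∧ ac v (fun j => c j + s * u j) m ⊆ ac v c m' := by
  have h : ∀ᶠ s in nhds (0 : ℝ), ∀ σ : Finset J, ∀ m, Fe v (fun j => c j + s * u j) m →
      σ ⊆ ac v (fun j => c j + s * u j) m → ∃ m', Fe v c m' ∧ σ ⊆ ac v c m' :=
    Filter.eventually_all.2 fun σ => usc1 v hv c u σ
  filter_upwards [h] with s hs m hm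
  exact hs _ m hm subset_rfl

/-- a vertex moves -/
lemma move (hCF : S_CF) (v : J → Ve d) (c u : J → ℝ) (σ τ : Finset J) (m : Ve d)
    (hσ : σ.card = d) (hi : Ind v σ) (hm : Fe v c m) (hac : ac v c m = τ) (hs : σ ⊆ τ) :
    ∃ w : Ve d, (∀ j ∈ σ, ∀ s : ℝ, dt (m + s • w) (v j) = c j + s * u j) ∧
      ∀ᶠ s in nhds (0 : ℝ), ∀ j, j ∉ τ → dt (m + s • w) (v j) < c j + s * u j := by
  obtain ⟨w, hw, -⟩ := (hCF J d v 0 σ hσ hi).2.2.2.2 u
  refine ⟨w, fun j hj s => ?_, ?_⟩
  · rw [dt_add, dt_smul, hw j hj]
    have : dt m (v j) = c j := by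
      rw [← mem_ac, hac]
      exact hs hj
    rw [this]
  · refine Filter.eventually_all.2 fun j => ?_
    by_cases hj : j ∈ τ
    · exact Filter.Eventually.of_forall fun s h => absurd hj h
    · have h1 : dt m (v j) < c j := by
        refine lt_of_le_of_ne (hm j) fun h => hj ?_
        rw [← hac, mem_ac]
        exact h
      have hc1 : Continuous fun s : ℝ => dt (m + s • w) (v j) := by
        have : (fun s : ℝ => dt (m + s • w) (v j)) = fun s => dt m (v j) + s * dt w (v j) := by
          funext s
          rw [dt_add, dt_smul]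
        rw [this]
        fun_prop
      have hc2 : Continuous fun s : ℝ => c j + s * u j := by fun_prop
      have h2 : ∀ᶠ s in nhds (0 : ℝ), dt (m + s • w) (v j) < c j + s * u j := by
        refine hc1.continuousAt.eventually_lt hc2.continuousAt ?_
        simpa using h1
      filter_upwards [h2] with s hs _
      exact hs

lemma ind_mono (v : J → Ve d) {σ τ : Finset J} (h : σ ⊆ τ) (hτ : Ind v τ) : Ind v σ := by
  unfold Ind at *
  have := hτ.comp (fun j : σ => (⟨j.1, h j.2⟩ : τ)) (fun a b hab => by
    apply Subtype.ext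
    exact congrArg (fun z : τ => z.1) hab)
  exact this

lemma ind_card (v : J → Ve d) {σ : Finset J} (h : Ind v σ) : σ.card ≤ d := by
  have := h.fintype_card_le_finrank
  simpa using this

lemma mem_Fa (v : J → Ve d) (c : J → ℝ) (σ : Finset J) :
    σ ∈ Fa v c ↔ σ.card = d ∧ Ind v σ ∧ ∃ m, Fe v c m ∧ ac v c m = σ := by
  simp [Fa]

theorem main (hCF : S_CF) : S_SWAP := by
  intro J _ _ d v c u Z lam x₀ hPS hGP hZ hU hx₀ hacx hdeg
  classical
  have hrel : ∀ m : Ve d, ∑ j, lam j * dt m (v j) = 0 := dt_rel v lam hZ.rel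
  have hlamc : ∑ j, lam j * c j = 0 := by
    rw [← hrel x₀]
    refine Finset.sum_congr rfl fun j _ => ?_
    by_cases hj : j ∈ Z
    · have : dt x₀ (v j) = c j := by
        rw [← mem_ac, hacx]
        exact hj
      rw [this]
    · have : lam j = 0 := by
        by_contra h
        exact hj ((hZ.supp j).1 h)
      rw [this, zero_mul, zero_mul]
  -- the key identity
  have hkey : ∀ (s : ℝ) (m : Ve d) (i : J), i ∈ Z →
      (∀ j ∈ Z.erase i, dt m (v j) = c j + s * u j) →
      lam i * (c i + s * u i - dt m (v i)) = s * ∑ j, lam j * u j := by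
    intro s m i hi hm
    have h1 : ∑ j, lam j * (c j + s * u j - dt m (v j)) = s * ∑ j, lam j * u j := by
      have : ∀ j, lam j * (c j + s * u j - dt m (v j)) =
          lam j * c j + s * (lam j * u j) - lam j * dt m (v j) := fun j => by ring
      simp only [this, Finset.sum_sub_distrib, Finset.sum_add_distrib, ← Finset.mul_sum]
      rw [hlamc, hrel]
      ring
    rw [← h1, Finset.sum_eq_single i]
    · intro j _ hji
      by_cases hj : j ∈ Z
      · rw [hm j (Finset.mem_erase.2 ⟨hji, hj⟩)]
        ring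
      · have : lam j = 0 := by
          by_contra h
          exact hj ((hZ.supp j).1 h)
        rw [this, zero_mul]
    · intro h
      exact absurd (Finset.mem_univ i) h
  have hZne : Z.Nonempty := by
    rw [← Finset.card_pos, hZ.card]
    omega
  -- the eventual statements
  have e1 := usc v hPS c u
  have e2 : ∀ᶠ s in nhds (0 : ℝ), ∀ σ : Finset J, ¬ σ ⊆ Z → σ ∈ Fa v c →
      σ ∈ Fa v (fun j => c j + s * u j) := by
    refine Filter.eventually_all.2 fun σ => ?_
    by_cases hσ : σ ∈ Fa v c
    · obtain ⟨h1, h2, m, h3, h4⟩ := (mem_Fa v c σ).1 hσ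
      obtain ⟨w, hw1, hw2⟩ := move hCF v c u σ σ m h1 h2 h3 h4 subset_rfl
      filter_upwards [hw2] with s hs _ _
      rw [mem_Fa]
      refine ⟨h1, h2, m + s • w, fun j => ?_, ?_⟩
      · by_cases hj : j ∈ σ
        · exact (hw1 j hj s).le
        · exact (hs j hj).le
      · ext j
        rw [mem_ac]
        constructor
        · intro h
          by_contra hj
          exact (hs j hj).ne h
        · intro hj
          exact hw1 j hj s
    · exact Filter.Eventually.of_forall fun s _ h => absurd h hσ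
  have e3 : ∀ᶠ s in nhds (0 : ℝ), ∀ i : J, i ∈ Z → 0 < s * lam i →
      Z.erase i ∈ Fa v (fun j => c j + s * u j) := by
    refine Filter.eventually_all.2 fun i => ?_
    by_cases hi : i ∈ Z
    · have hcard : (Z.erase i).card = d := by
        rw [Finset.card_erase_of_mem hi, hZ.card]
        omega
      have hind : Ind v (Z.erase i) := hGP _ hcard.le
      obtain ⟨w, hw1, hw2⟩ := move hCF v c u (Z.erase i) Z x₀ hcard hind hx₀ hacx
        (Finset.erase_subset _ _)
      filter_upwards [hw2] with s hs _ hpos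
      have hk := hkey s (x₀ + s • w) i hi fun j hj => hw1 j hj s
      have hsi : dt (x₀ + s • w) (v i) < c i + s * u i := by
        have h2 : 0 < (s * lam i) * (c i + s * u i - dt (x₀ + s • w) (v i)) := by
          have : (s * lam i) * (c i + s * u i - dt (x₀ + s • w) (v i)) =
              (s * s) * ∑ j, lam j * u j := by
            rw [mul_assoc, hk]
            ring
          rw [this]
          have hs0 : s ≠ 0 := by
            rintro rfl
            simp at hpos
          exact mul_pos (mul_self_pos.2 hs0) hU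
        have h3 := (mul_pos_iff_of_pos_left hpos).1 h2
        linarith
      rw [mem_Fa]
      refine ⟨hcard, hind, x₀ + s • w, fun j => ?_, ?_⟩
      · by_cases hj : j ∈ Z.erase i
        · exact (hw1 j hj s).le
        · by_cases hjZ : j ∈ Z
          · have : j = i := by
              by_contra h
              exact hj (Finset.mem_erase.2 ⟨h, hjZ⟩)
            rw [this]
            exact hsi.le
          · exact (hs j hjZ).le
      · ext j
        rw [mem_ac]
        constructor
        · intro h
          by_contra hj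
          by_cases hjZ : j ∈ Z
          · have h5 : j = i := by
              by_contra h
              exact hj (Finset.mem_erase.2 ⟨h, hjZ⟩)
            rw [h5] at h
            exact hsi.ne h
          · exact (hs j hjZ).ne h
        · intro hj
          exact hw1 j hj s
    · exact Filter.Eventually.of_forall fun s h => absurd h hi
  obtain ⟨ε, hε, hall⟩ := Metric.eventually_nhds_iff.1 (e1.and (e2.and e3))
  -- the description for all small s
  have hdesc : ∀ s : ℝ, s ≠ 0 → |s| < ε → Sim v (fun j => c j + s * u j) ∅ ∧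
      ∀ σ, σ ∈ Fa v (fun j => c j + s * u j) ↔
        (¬ σ ⊆ Z ∧ σ ∈ Fa v c) ∨ ∃ i ∈ Z, 0 < s * lam i ∧ σ = Z.erase i := by
    intro s hs0 hs
    obtain ⟨h1, h2, h3⟩ := hall (y := s) (by rw [Real.dist_eq, sub_zero]; exact hs)
    have hSZ : ∀ m, Fe v (fun j => c j + s * u j) m → ac v (fun j => c j + s * u j) m ≠ Z := by
      intro m hm hac
      obtain ⟨i, hi⟩ := hZne
      have hall' : ∀ j ∈ Z, dt m (v j) = c j + s * u j := by
        intro j hj
        rw [← hac, mem_ac] at hj
        exact hj
      have hk := hkey s m i hi fun j hj => hall' j (Finset.mem_of_mem_erase hj)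
      rw [hall' i hi, sub_self, mul_zero] at hk
      rcases mul_eq_zero.1 hk.symm with h | h
      · exact hs0 h
      · exact hU.ne' h
    refine ⟨fun m hm _ => ?_, fun σ => ⟨fun hσ => ?_, ?_⟩⟩
    · obtain ⟨m', hm', hsub⟩ := h1 m hm
      by_cases hI : Ind v (ac v c m')
      · exact ind_mono v hsub hI
      · have hx : m' = x₀ := hdeg m' hm' hI
        rw [hx, hacx] at hsub
        apply hGP
        have hlt : (ac v (fun j => c j + s * u j) m).card < Z.card :=
          Finset.card_lt_card (lt_of_le_of_ne hsub (hSZ m hm))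
        rw [hZ.card] at hlt
        omega
    · obtain ⟨hc, hi, m, hm, hac⟩ := (mem_Fa _ _ _).1 hσ
      by_cases hZσ : σ ⊆ Z
      · right
        have hlt : σ ⊂ Z := by
          refine ⟨hZσ, fun h => ?_⟩
          have := Finset.card_le_card h
          rw [hZ.card, hc] at this
          omega
        obtain ⟨i, hiZ, hiσ⟩ := Finset.exists_of_ssubset hlt
        have hσe : σ = Z.erase i := by
          apply Finset.eq_of_subset_of_card_le
          · intro j hj
            refine Finset.mem_erase.2 ⟨fun h => hiσ (h ▸ hj), hZσ hj⟩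
          · rw [Finset.card_erase_of_mem hiZ, hZ.card, hc]
            omega
        refine ⟨i, hiZ, ?_, hσe⟩
        have hk := hkey s m i hiZ fun j hj => by
          rw [← hσe, ← hac, mem_ac] at hj
          exact hj
        have hlt2 : 0 < c i + s * u i - dt m (v i) := by
          have h4 : dt m (v i) ≤ c i + s * u i := hm i
          have h5 : dt m (v i) ≠ c i + s * u i := by
            intro h
            apply hiσ
            rw [← hac, mem_ac]
            exact h
          have := lt_of_le_of_ne h4 h5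
          linarith
        have h6 : 0 < (s * lam i) * (c i + s * u i - dt m (v i)) := by
          have : (s * lam i) * (c i + s * u i - dt m (v i)) = (s * s) * ∑ j, lam j * u j := by
            rw [mul_assoc, hk]
            ring
          rw [this]
          exact mul_pos (mul_self_pos.2 hs0) hU
        exact (mul_pos_iff_of_pos_right hlt2).1 h6
      · left
        refine ⟨hZσ, ?_⟩
        obtain ⟨m', hm', hsub⟩ := h1 m hm
        rw [hac] at hsub
        have hI : Ind v (ac v c m') := by
          by_contra hI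
          have hx : m' = x₀ := hdeg m' hm' hI
          rw [hx, hacx] at hsub
          exact hZσ hsub
        have heq : σ = ac v c m' := by
          apply Finset.eq_of_subset_of_card_le hsub
          rw [hc]
          exact ind_card v hI
        rw [mem_Fa]
        exact ⟨hc, hi, m', hm', heq.symm⟩
    · rintro (⟨h4, h5⟩ | ⟨i, hi, hpos, rfl⟩)
      · exact h2 σ h4 h5
      · exact h3 i hi hpos
  refine ⟨ε, (Fa v c).filter fun σ => ¬ σ ⊆ Z, hε, fun σ hσ => (Finset.mem_filter.1 hσ).2,
    fun σ hσ => ⟨fun h => (Finset.mem_filter.1 h).1, fun h => Finset.mem_filter.2 ⟨h, hσ⟩⟩,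
    fun s hs hsε => ?_⟩
  obtain ⟨hA, hB⟩ := hdesc s hs.ne' (by rwa [abs_of_pos hs])
  obtain ⟨hC, hD⟩ := hdesc (-s) (neg_ne_zero.2 hs.ne') (by rwa [abs_neg, abs_of_pos hs])
  have hneg : (fun j => c j + -s * u j) = fun j => c j - s * u j := by
    funext j
    ring
  rw [hneg] at hC hD
  refine ⟨hA, hC, ?_, ?_⟩
  · ext σ
    rw [hB, Finset.mem_union, Finset.mem_filter, Finset.mem_image]
    constructor
    · rintro (⟨h1, h2⟩ | ⟨i, hi, hpos, rfl⟩)
      · exact Or.inl ⟨h2, h1⟩
      · exact Or.inr ⟨i, Finset.mem_filter.2 ⟨hi, (mul_pos_iff_of_pos_left hs).1 hpos⟩, rfl⟩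
    · rintro (⟨h1, h2⟩ | ⟨i, hi, rfl⟩)
      · exact Or.inl ⟨h2, h1⟩
      · have hi2 := Finset.mem_filter.1 hi
        exact Or.inr ⟨i, hi2.1, mul_pos hs hi2.2, rfl⟩
  · ext σ
    rw [hD, Finset.mem_union, Finset.mem_filter, Finset.mem_image]
    constructor
    · rintro (⟨h1, h2⟩ | ⟨i, hi, hpos, rfl⟩)
      · exact Or.inl ⟨h2, h1⟩
      · refine Or.inr ⟨i, Finset.mem_filter.2 ⟨hi, ?_⟩, rfl⟩
        have : 0 < s * (-lam) i := by
          show 0 < s * (-(lam i))
          linarith [hpos, neg_mul s (lam i), mul_neg s (lam i)]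
        exact (mul_pos_iff_of_pos_left hs).1 this
    · rintro (⟨h1, h2⟩ | ⟨i, hi, rfl⟩)
      · exact Or.inl ⟨h2, h1⟩
      · have hi2 := Finset.mem_filter.1 hi
        refine Or.inr ⟨i, hi2.1, ?_, rfl⟩
        have h7 : 0 < s * (-lam) i := mul_pos hs hi2.2
        have h8 : s * (-lam) i = -s * lam i := by
          show s * (-(lam i)) = -s * lam i
          ring
        rw [← h8]
        exact h7

end Pool.Agent.Helper52.HR.SWAP
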