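import Pool.Agent.Helper52.HR.CF
import Pool.Agent.Helper52.HR.SWAP

set_option autoImplicit false
set_option linter.all false

open MvPolynomial Pool.Agent.Helper59.LP

namespace Pool.Agent.Helper52.HR.CRU

variable {J : Type} [Fintype J] [DecidableEq J] {d : ℕ}

/-- a homogeneous polynomial of degree one is a linear form -/
lemma lin (l : MvPolynomial J ℝ) (hl : l.IsHomogeneous 1) :
    l = Lf fun j => coeff (Finsupp.single j 1) l := by
  unfold Lf
  ext μ
  rw [coeff_sum]
  simp only [coeff_C_mul, coeff_X']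
  by_cases hμ : ∃ i, μ = Finsupp.single i 1
  · obtain ⟨i, rfl⟩ := hμ
    rw [Finset.sum_eq_single i]
    · simp
    · intro j _ hj
      rw [if_neg, mul_zero]
      intro h
      exact hj (Finsupp.single_left_injective one_ne_zero h)
    · intro h
      exact absurd (Finset.mem_univ i) h
  · rw [Finset.sum_eq_zero]
    · by_contra h
      have h1 := hl h
      apply hμ
      have h2 : μ.degree = 1 := by
        rw [Finsupp.degree_eq_weight_one]
        exact h1
      have h3 : ∃ i, μ i ≠ 0 := by
        by_contra h4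
        push Not at h4
        have : μ = 0 := Finsupp.ext h4
        rw [this] at h2
        simp at h2
      obtain ⟨i, hi⟩ := h3
      refine ⟨i, ?_⟩
      have h5 : Finsupp.single i 1 ≤ μ := by
        rw [Finsupp.single_le_iff]
        omega
      have h6 : (μ - Finsupp.single i 1) + Finsupp.single i 1 = μ := tsub_add_cancel_of_le h5
      have h7 : (μ - Finsupp.single i 1).degree = 0 := by
        have := congrArg Finsupp.degree h6
        rw [map_add, Finsupp.degree_single, h2] at this
        omega
      have h8 : μ - Finsupp.single i 1 = 0 := (Finsupp.degree_eq_zero_iff _).1 h7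
      rw [h8, zero_add] at h6
      exact h6.symm
    · intro j _
      rw [if_neg, mul_zero]
      intro h
      exact hμ ⟨j, h.symm⟩

lemma lam_c (v : J → Ve d) (Z : Finset J) (lam : J → ℝ) (hZ : Circ v Z lam) (c : J → ℝ)
    (m : Ve d) (hm : ∀ j ∈ Z, dt m (v j) = c j) : ∑ j, lam j * c j = 0 := by
  rw [← SWAP.dt_rel v lam hZ.rel m]
  refine Finset.sum_congr rfl fun j _ => ?_
  by_cases hj : j ∈ Z
  · rw [hm j hj]
  · have : lam j = 0 := by
      by_contra h
      exact hj ((hZ.supp j).1 h)
    rw [this, zero_mul, zero_mul]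

lemma solve (v : J → Ve d) (hGP : GP v) (Z : Finset J) (lam : J → ℝ) (hZ : Circ v Z lam)
    (c : J → ℝ) (hc : ∑ j, lam j * c j = 0) : ∃ m : Ve d, ∀ j ∈ Z, dt m (v j) = c j := by
  have hZne : Z.Nonempty := by
    rw [← Finset.card_pos, hZ.card]
    omega
  obtain ⟨i, hi⟩ := hZne
  have hcard : (Z.erase i).card = d := by
    rw [Finset.card_erase_of_mem hi, hZ.card]
    omega
  obtain ⟨m, hm, -⟩ := (CF.main J d v 0 (Z.erase i) hcard (hGP _ hcard.le)).2.2.2.2 c
  refine ⟨m, fun j hj => ?_⟩
  by_cases hji : j = i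
  · subst hji
    have h1 : ∑ k, lam k * (c k - dt m (v k)) = 0 := by
      simp only [mul_sub, Finset.sum_sub_distrib]
      rw [hc, SWAP.dt_rel v lam hZ.rel m, sub_zero]
    rw [Finset.sum_eq_single j] at h1
    · rcases mul_eq_zero.1 h1 with h | h
      · exact absurd h ((hZ.supp j).2 hj)
      · linarith
    · intro k _ hk
      by_cases hkZ : k ∈ Z
      · rw [hm k (Finset.mem_erase.2 ⟨hk, hkZ⟩)]
        ring
      · have : lam k = 0 := by
          by_contra h
          exact hkZ ((hZ.supp k).1 h)
        rw [this, zero_mul]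
    · intro h
      exact absurd (Finset.mem_univ j) h
  · exact hm j (Finset.mem_erase.2 ⟨hji, hj⟩)

theorem main : S_CRU := by
  intro J _ _ d v hGP Z lam hZ
  refine ⟨fun c => ⟨fun ⟨m, hm⟩ => lam_c v Z lam hZ c m hm, fun h => solve v hGP Z lam hZ c h⟩,
    fun l hl hl0 => ?_⟩
  have h1 := lin l hl
  have h2 : ∑ j, lam j * coeff (Finsupp.single j 1) l = 0 := by
    rw [h1] at hl0
    unfold Lf at hl0
    simp only [map_sum, map_mul, eval_C, eval_X] at hl0
    rw [← hl0]
    exact Finset.sum_congr rfl fun j _ => mul_comm _ _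
  obtain ⟨m, hm⟩ := solve v hGP Z lam hZ _ h2
  refine ⟨m, fun j => coeff (Finsupp.single j 1) l - dt m (v j), fun j hj => ?_, ?_⟩
  · show coeff (Finsupp.single j 1) l - dt m (v j) = 0
    rw [hm j hj, sub_self]
  · conv_lhs => rw [h1]
    unfold th Lf
    rw [← Finset.sum_add_distrib]
    refine Finset.sum_congr rfl fun j _ => ?_
    rw [← add_mul, ← C_add]
    congr 2
    ring

end Pool.Agent.Helper52.HR.CRU
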