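import Pool.Agent.Helper52.HR.CRU

set_option autoImplicit false
set_option linter.all false

open Pool.Agent.Helper59.LP

namespace Pool.Agent.Helper52.HR.GEN

variable {J : Type} [Fintype J] [DecidableEq J] {d : ℕ}

/-- a positive vector outside of finitely many hyperplanes -/
lemma generic (A : Finset (J → ℝ)) (hA : ∀ a ∈ A, a ≠ 0) :
    ∃ u : J → ℝ, (∀ j, 0 < u j) ∧ ∀ a ∈ A, ∑ j, a j * u j ≠ 0 := by
  classical
  let e : J ≃ Fin (Fintype.card J) := Fintype.equivFin J
  let P : (J → ℝ) → Polynomial ℝ := fun a =>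
    ∑ j, Polynomial.C (a j) * Polynomial.X ^ ((e j : Fin _) : ℕ)
  have hP : ∀ a : J → ℝ, a ≠ 0 → P a ≠ 0 := by
    intro a ha h
    obtain ⟨i, hi⟩ := Function.ne_iff.1 ha
    apply hi
    have h1 : (P a).coeff ((e i : Fin _) : ℕ) = a i := by
      simp only [P, Polynomial.finsetSum_coeff, Polynomial.coeff_C_mul, Polynomial.coeff_X_pow]
      rw [Finset.sum_eq_single i]
      · simp
      · intro j _ hj
        rw [if_neg, mul_zero]
        intro h2
        apply hj
        exact (e.injective (Fin.ext h2)).symm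
      · intro h
        exact absurd (Finset.mem_univ i) h
    rw [← h1, h]
    simp
  have hfin : (⋃ a ∈ A, {t : ℝ | (P a).IsRoot t}).Finite := by
    refine Set.Finite.biUnion A.finite_toSet fun a ha => ?_
    exact Polynomial.finite_setOf_isRoot (hP a (hA a ha))
  have hinf : (Set.Ioi (0 : ℝ) \ ⋃ a ∈ A, {t : ℝ | (P a).IsRoot t}).Infinite :=
    (Set.Ioi_infinite 0).diff hfin
  obtain ⟨t, ht0, ht⟩ := hinf.nonempty
  refine ⟨fun j => t ^ ((e j : Fin _) : ℕ), fun j => pow_pos ht0 _, fun a ha h => ?_⟩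
  apply ht
  refine Set.mem_iUnion₂.2 ⟨a, ha, ?_⟩
  show (P a).eval t = 0
  simp only [P, Polynomial.eval_finset_sum, Polynomial.eval_mul, Polynomial.eval_C,
    Polynomial.eval_pow, Polynomial.eval_X]
  exact h

theorem main (hCIR : S_CIR) : S_GEN := by
  intro J _ _ d v c hGP
  classical
  -- circuits
  have hL : ∀ Z : Finset J, ∃ lam : J → ℝ, Z.card = d + 1 → Circ v Z lam := by
    intro Z
    by_cases h : Z.card = d + 1
    · obtain ⟨lam, hl⟩ := hCIR J d v hGP Z h
      exact ⟨lam, fun _ => hl⟩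
    · exact ⟨0, fun h' => absurd h' h⟩
  choose L hL using hL
  let W : Finset (Finset J) := Finset.univ.filter fun Z => Z.card = d + 1
  have hW : ∀ Z, Z ∈ W ↔ Z.card = d + 1 := by
    intro Z
    simp [W]
  let A1 : Finset (J → ℝ) := W.image L
  let A2 : Finset (J → ℝ) := (((W ×ˢ W).filter fun p => p.1 ≠ p.2 ∧ ∑ j, L p.1 j * c j ≠ 0).image
    fun p => fun j => (∑ i, L p.1 i * c i) * L p.2 j - (∑ i, L p.2 i * c i) * L p.1 j)
  have hnz1 : ∀ a ∈ A1, a ≠ 0 := by
    intro a ha
    obtain ⟨Z, hZ, rfl⟩ := Finset.mem_image.1 ha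
    have hc := hL Z ((hW Z).1 hZ)
    have hZne : Z.Nonempty := by
      rw [← Finset.card_pos, hc.card]
      omega
    obtain ⟨i, hi⟩ := hZne
    intro h0
    exact (hc.supp i).2 hi (congrFun h0 i)
  have hnz2 : ∀ a ∈ A2, a ≠ 0 := by
    intro a ha
    obtain ⟨⟨Z, Z'⟩, hp, rfl⟩ := Finset.mem_image.1 ha
    obtain ⟨hp1, hne, hc0⟩ := Finset.mem_filter.1 hp
    obtain ⟨h1, h2⟩ := Finset.mem_product.1 hp1
    simp only at h1 h2 hne hc0
    have hc1 := hL Z ((hW Z).1 h1)
    have hc2 := hL Z' ((hW Z').1 h2)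
    have : ∃ j ∈ Z', j ∉ Z := by
      by_contra h
      push Not at h
      apply hne
      symm
      apply Finset.eq_of_subset_of_card_le h
      rw [hc1.card, hc2.card]
    obtain ⟨j, hj, hj'⟩ := this
    intro h0
    have h3 := congrFun h0 j
    simp only [Pi.zero_apply] at h3
    have h4 : L Z j = 0 := by
      by_contra h
      exact hj' ((hc1.supp j).1 h)
    rw [h4, mul_zero, sub_zero] at h3
    rcases mul_eq_zero.1 h3 with h | h
    · exact hc0 h
    · exact (hc2.supp j).2 hj h
  obtain ⟨u, hu, hgen⟩ := generic (A1 ∪ A2) fun a ha => by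
    rcases Finset.mem_union.1 ha with h | h
    · exact hnz1 a h
    · exact hnz2 a h
  have hg1 : ∀ Z ∈ W, ∑ j, L Z j * u j ≠ 0 := fun Z hZ =>
    hgen _ (Finset.mem_union_left _ (Finset.mem_image_of_mem _ hZ))
  have hg2 : ∀ Z ∈ W, ∀ Z' ∈ W, Z ≠ Z' → ∑ j, L Z j * c j ≠ 0 →
      (∑ i, L Z i * c i) * (∑ j, L Z' j * u j) ≠ (∑ i, L Z' i * c i) * ∑ j, L Z j * u j := by
    intro Z hZ Z' hZ' hne h0 he
    have h1 : (fun j => (∑ i, L Z i * c i) * L Z' j - (∑ i, L Z' i * c i) * L Z j) ∈ A1 ∪ A2 := by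
      refine Finset.mem_union_right _ (Finset.mem_image.2 ⟨(Z, Z'), ?_, rfl⟩)
      exact Finset.mem_filter.2 ⟨Finset.mem_product.2 ⟨hZ, hZ'⟩, hne, h0⟩
    apply hgen _ h1
    simp only [sub_mul, Finset.sum_sub_distrib, mul_assoc, ← Finset.mul_sum]
    rw [he, sub_self]
  let tm : Finset J → ℝ := fun Z => (∑ j, L Z j * c j) / ∑ j, L Z j * u j
  let T : Finset ℝ := (W.image tm).filter fun s => 0 < s
  -- a degenerate point gives a circuit
  have hdegen : ∀ (s : ℝ) (m : Ve d), ¬ Ind v (ac v (fun j => c j - s * u j) m) →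
      ∃ Z ∈ W, Z ⊆ ac v (fun j => c j - s * u j) m := by
    intro s m hI
    have h1 : d + 1 ≤ (ac v (fun j => c j - s * u j) m).card := by
      by_contra h
      exact hI (hGP _ (by omega))
    obtain ⟨Z, hZ1, hZ2⟩ := Finset.exists_subset_card_eq h1
    exact ⟨Z, (hW Z).2 hZ2, hZ1⟩
  have hcross : ∀ (s : ℝ) (m : Ve d) (Z : Finset J), Z ∈ W →
      Z ⊆ ac v (fun j => c j - s * u j) m → ∑ j, L Z j * c j = s * ∑ j, L Z j * u j := by
    intro s m Z hZ hsub
    have h1 := CRU.lam_c v Z (L Z) (hL Z ((hW Z).1 hZ)) (fun j => c j - s * u j) m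
      fun j hj => (SWAP.mem_ac _ _ _ _).1 (hsub hj)
    have h2 : ∑ j, L Z j * (c j - s * u j) = ∑ j, L Z j * c j - s * ∑ j, L Z j * u j := by
      rw [Finset.mul_sum, ← Finset.sum_sub_distrib]
      exact Finset.sum_congr rfl fun j _ => by ring
    rw [h2] at h1
    linarith
  refine ⟨u, T, hu, fun s hs hsT m hm _ => ?_, fun s hsT => ?_⟩
  · by_contra hI
    obtain ⟨Z, hZ, hsub⟩ := hdegen s m hI
    have h1 := hcross s m Z hZ hsub
    apply hsT
    refine Finset.mem_filter.2 ⟨Finset.mem_image.2 ⟨Z, hZ, ?_⟩, hs⟩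
    show (∑ j, L Z j * c j) / ∑ j, L Z j * u j = s
    rw [h1, mul_div_assoc, div_self (hg1 Z hZ), mul_one]
  · have hs : 0 < s := (Finset.mem_filter.1 hsT).2
    refine ⟨hs, ?_⟩
    by_cases hall : ∀ m, Fe v (fun j => c j - s * u j) m →
        Ind v (ac v (fun j => c j - s * u j) m)
    · exact Or.inl hall
    · right
      push Not at hall
      obtain ⟨m₀, hm₀, hI₀⟩ := hall
      obtain ⟨Z, hZ, hsub⟩ := hdegen s m₀ hI₀
      have hZc := hL Z ((hW Z).1 hZ)
      have hcu := hcross s m₀ Z hZ hsub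
      have hc0 : ∑ j, L Z j * c j ≠ 0 := by
        rw [hcu]
        exact mul_ne_zero hs.ne' (hg1 Z hZ)
      -- uniqueness of the circuit
      have huniq : ∀ (m : Ve d) (Z' : Finset J), Z' ∈ W →
          Z' ⊆ ac v (fun j => c j - s * u j) m → Z' = Z := by
        intro m Z' hZ' hsub'
        by_contra hne
        have h1 := hcross s m Z' hZ' hsub'
        apply hg2 Z hZ Z' hZ' (fun h => hne h.symm) hc0
        rw [h1, hcu]
        ring
      have hacZ : ∀ m : Ve d, ¬ Ind v (ac v (fun j => c j - s * u j) m) →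
          ac v (fun j => c j - s * u j) m = Z := by
        intro m hI
        obtain ⟨Z1, hZ1, hsub1⟩ := hdegen s m hI
        have h1 : Z1 = Z := huniq m Z1 hZ1 hsub1
        rw [h1] at hsub1
        apply le_antisymm _ hsub1
        intro j hj
        by_contra hjZ
        have hZne : Z.Nonempty := by
          rw [← Finset.card_pos, hZc.card]
          omega
        obtain ⟨i, hi⟩ := hZne
        have h2 : insert j (Z.erase i) ∈ W := by
          rw [hW, Finset.card_insert_of_notMem, Finset.card_erase_of_mem hi, hZc.card]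
          · omega
          · intro h
            exact hjZ (Finset.mem_of_mem_erase h)
        have h3 : insert j (Z.erase i) ⊆ ac v (fun j => c j - s * u j) m := by
          intro k hk
          rcases Finset.mem_insert.1 hk with h | h
          · rw [h]
            exact hj
          · exact hsub1 (Finset.mem_of_mem_erase h)
        have h4 := huniq m _ h2 h3
        apply hjZ
        rw [← h4]
        exact Finset.mem_insert_self _ _
      refine ⟨m₀, Z, L Z, hZc, hg1 Z hZ, hm₀, hacZ m₀ hI₀, fun m hm hI => ?_⟩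
      have e1 := hacZ m hI
      have e2 := hacZ m₀ hI₀
      have hZne : Z.Nonempty := by
        rw [← Finset.card_pos, hZc.card]
        omega
      obtain ⟨i, hi⟩ := hZne
      have hcard : (Z.erase i).card = d := by
        rw [Finset.card_erase_of_mem hi, hZc.card]
        omega
      have hun := (CF.main J d v 0 (Z.erase i) hcard (hGP _ hcard.le)).2.2.2.2
        (fun j => c j - s * u j)
      apply hun.unique
      · intro j hj
        rw [← e1] at hj
        exact (SWAP.mem_ac _ _ _ _).1 (Finset.mem_of_mem_erase hj)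
      · intro j hj
        rw [← e2] at hj
        exact (SWAP.mem_ac _ _ _ _).1 (Finset.mem_of_mem_erase hj)

end Pool.Agent.Helper52.HR.GEN
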