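import Pool.Agent.Helper52.HR.SWAP

set_option autoImplicit false
set_option linter.all false

open MvPolynomial Pool.Agent.Helper59.LP Pool.Agent.Helper52.HR.SWAP

namespace Pool.Agent.Helper52.HR.STAB

theorem main (hCF : S_CF) : S_STAB := by
  intro J _ _ d v c u F hPS hSim
  classical
  have e1 := usc v hPS c u
  have e2 : ∀ᶠ s in nhds (0 : ℝ), ∀ σ : Finset J, σ ∈ Fa v c →
      σ ∈ Fa v (fun j => c j + s * u j) := by
    refine Filter.eventually_all.2 fun σ => ?_
    by_cases hσ : σ ∈ Fa v c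
    · obtain ⟨h1, h2, m, h3, h4⟩ := (mem_Fa v c σ).1 hσ
      obtain ⟨w, hw1, hw2⟩ := move hCF v c u σ σ m h1 h2 h3 h4 subset_rfl
      filter_upwards [hw2] with s hs _
      rw [mem_Fa]
      refine ⟨h1, h2, m + s • w, fun j => ?_, ?_⟩
      · by_cases hj : j ∈ σ
        · exact (hw1 j hj s).le
        · exact (hs j hj).le
      · ext j
        rw [mem_ac]
        constructor
        · intro h
          by_contra hj
          exact (hs j hj).ne h
        · intro hj
          exact hw1 j hj s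
    · exact Filter.Eventually.of_forall fun s h => absurd h hσ
  obtain ⟨ε, hε, hall⟩ := Metric.eventually_nhds_iff.1 (e1.and e2)
  refine ⟨ε, hε, fun s hs => ?_⟩
  obtain ⟨h1, h2⟩ := hall (y := s) (by rw [Real.dist_eq, sub_zero]; exact hs)
  refine ⟨fun m hm hF => ?_, fun σ hFσ => ⟨fun hσ => ?_, fun hσ => h2 σ hσ⟩⟩
  · obtain ⟨m', hm', hsub⟩ := h1 m hm
    exact ind_mono v hsub (hSim m' hm' (hF.trans hsub))
  · obtain ⟨hc, hi, m, hm, hac⟩ := (mem_Fa _ _ _).1 hσ
    obtain ⟨m', hm', hsub⟩ := h1 m hm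
    rw [hac] at hsub
    have hI : Ind v (ac v c m') := hSim m' hm' (hFσ.trans hsub)
    have heq : σ = ac v c m' := by
      apply Finset.eq_of_subset_of_card_le hsub
      rw [hc]
      exact ind_card v hI
    rw [mem_Fa]
    exact ⟨hc, hi, m', hm', heq.symm⟩

end Pool.Agent.Helper52.HR.STAB
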